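import Mathlib
import Pool.Agent.V1119.VF.Dec

namespace Pool.Agent.Results.MP_3ff21c_al.Decidable

/-- The value in `H` of a word over the letters `x i` and their inverses (`(i, true)` is `x i` and
`(i, false)` is `(x i)⁻¹`). -/
def val {σ H : Type} [Group H] (x : σ → H) (w : List (σ × Bool)) : H :=
  (w.map (fun p => cond p.2 (x p.1) (x p.1)⁻¹)).prod

/-- The instance of the homomorphism problem given by the list `inp` of pairs
`(word for s ∈ S, word for φ(s))`: the map `φ` extends to a monoid homomorphism from the submonoid
of `H` generated by `S` to `G`. -/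
def Extends {H G α : Type} [Group H] [Group G] {d : ℕ} (g : Fin d → H) (y : α → G)
    (inp : List (List (Fin d × Bool) × List (α × Bool))) : Prop :=
  ∃ Φ : Submonoid.closure {h : H | ∃ p ∈ inp, h = val g p.1} →* G,
    ∀ (p : List (Fin d × Bool) × List (α × Bool)) (hp : p ∈ inp),
      Φ ⟨val g p.1, Submonoid.subset_closure ⟨p, hp, rfl⟩⟩ = val y p.2

/-- **Theorem.** Let `H` be a virtually free group generated by `g 0, …, g (d-1)`, and let `G` be a
group with decidable word problem with respect to the elements `y`.  Then the homomorphism problem
is decidable, uniformly in the finite set `S ⊆ H` and the map `φ : S → G`. -/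
theorem result {H : Type} [Group H] {d : ℕ} (g : Fin d → H)
    (hg : Subgroup.closure (Set.range g) = ⊤)
    (F : Subgroup H) (hF : F.FiniteIndex) (hfree : IsFreeGroup F)
    {G : Type} [Group G] {α : Type} [Primcodable α] (y : α → G)
    (hG : ComputablePred (fun w : List (α × Bool) => val y w = 1)) :
    ComputablePred (fun inp : List (List (Fin d × Bool) × List (α × Bool)) =>
      Extends g y inp) :=
  Pool.Agent.V1119.VF.decidable g hg F hF hfree y hG

end Pool.Agent.Results.MP_3ff21c_al.Decidable
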